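import Mathlib
import Pool.Agent.H98.FlowShopProb

/-!
# Random permutation flow shop: the optimal error is not of order `√(m n)`

We use the definitions of `Pool.Agent.H98.FlowShop`:

* `completion t i j` is the completion time `C_{i,j}`, given by `C_{0,j} = C_{i,0} = 0` and
  `C_{i,j} = max (C_{i-1,j}) (C_{i,j-1}) + t (i-1) (j-1)`;
* `ordered T π i j` is the time on machine `j` (from `0`) of the task in position `i` (from `0`);
* `makespan T π = C_{n,m}` for the order `π`, and `optMakespan T` is its minimum over all `π`;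
* `expOptError F m n` is the expectation of `optMakespan T - (n + m - 1) τ` when the `m n`
  operation times are i.i.d. with law `F` (product measure) and `τ` is the mean of `F`.
  The integrand is integrable (`integrable_optError`), so this Bochner integral is the true
  expectation.

The proof: for fixed `m`, an ordering given by the Steinitz lemma shows that the optimal makespan
exceeds the largest machine load by at most `m (2 m + 1)` times the largest operation time, and the
expected excess of the largest machine load over `n τ` is at most `o(√m) √n`.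
-/

open MeasureTheory Pool.Agent.H98.FlowShop

namespace Pool.Agent.Results.MP_0b8746_pr.Disproof

/-- For every law `F` on `[0, ∞)` with finite second moment and every `c > 0`: for all large
enough numbers `m` of machines, and then all large enough numbers `n` of tasks, the expected error
of the optimal permutation schedule is smaller than `c √(m n)`. -/
theorem result (F : Measure ℝ) [IsProbabilityMeasure F] (hF0 : ∀ᵐ x ∂F, 0 ≤ x)
    (hF2 : MemLp id 2 F) (c : ℝ) (hc : 0 < c) :
    ∃ m₀ : ℕ, 3 ≤ m₀ ∧ ∀ m : ℕ, m₀ ≤ m → ∃ n₁ : ℕ, ∀ n : ℕ, n₁ ≤ n →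
      expOptError F m n < c * √((m : ℝ) * n) := by
  -- choice of the truncation level `B`
  have he : 0 < c / 4 := by positivity
  obtain ⟨B, hB0, hB⟩ := tail_tendsto hF2 (ε := (c / 4) ^ 2) (by positivity)
  have hBt : tail F B ≤ (c / 4) ^ 2 := hB B le_rfl
  -- choice of `m₀`
  have hlog : ∃ m₀ : ℕ, 3 ≤ m₀ ∧ ∀ m : ℕ, m₀ ≤ m →
      Real.log m + B ^ 2 / 8 ≤ (c / 4) * √(m : ℝ) := by
    have h1 : Filter.Tendsto (fun m : ℕ => (Real.log m + B ^ 2 / 8) / √(m : ℝ)) Filter.atTop
        (nhds 0) := by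
      have h2 : Filter.Tendsto (fun x : ℝ => Real.log x / x ^ (1 / 2 : ℝ)) Filter.atTop
          (nhds 0) :=
        (isLittleO_log_rpow_atTop (by norm_num : (0 : ℝ) < 1 / 2)).tendsto_div_nhds_zero
      have h3 : Filter.Tendsto (fun x : ℝ => (B ^ 2 / 8) / x ^ (1 / 2 : ℝ)) Filter.atTop
          (nhds 0) :=
        (tendsto_rpow_atTop (by norm_num : (0 : ℝ) < 1 / 2)).const_div_atTop _
      have h4 := (h2.add h3).comp tendsto_natCast_atTop_atTop
      rw [add_zero] at h4
      refine h4.congr fun m => ?_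
      simp only [Function.comp_apply]
      rw [← add_div, Real.sqrt_eq_rpow]
    have h5 := (h1.eventually (ge_mem_nhds he)).exists_forall_of_atTop
    obtain ⟨N, hN⟩ := h5
    refine ⟨max N 3, le_max_right _ _, fun m hm => ?_⟩
    have hm1 : N ≤ m := (le_max_left _ _).trans hm
    have hm3 : 3 ≤ m := (le_max_right _ _).trans hm
    have hmpos : 0 < √(m : ℝ) := Real.sqrt_pos.mpr (by exact_mod_cast (by omega : 0 < m))
    have := hN m hm1
    rwa [div_le_iff₀ hmpos] at this
  obtain ⟨m₀, hm3, hm₀⟩ := hlog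
  refine ⟨m₀, hm3, fun m hm => ?_⟩
  have hmpos : 0 < m := by omega
  have hmR : (0 : ℝ) < m := by exact_mod_cast hmpos
  have hsm : 0 < √(m : ℝ) := Real.sqrt_pos.mpr hmR
  set K : ℝ := m * (2 * m + 1) with hK
  have hKpos : 0 < K := by positivity
  -- choice of `δ`
  set δ : ℝ := (c / 8) * √(m : ℝ) / K with hδ
  have hδpos : 0 < δ := by positivity
  obtain ⟨b₀, hb₀, hb⟩ := tail_tendsto hF2 (ε := (c / 8) * √(m : ℝ) * δ / (K * m)) (by positivity)
  obtain ⟨N, hN⟩ := exists_nat_gt ((b₀ / δ) ^ 2)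
  refine ⟨N + 1, fun n hn => ?_⟩
  have hnpos : 0 < n := by omega
  have hnR : (0 : ℝ) < n := by exact_mod_cast hnpos
  have hsn : 0 < √(n : ℝ) := Real.sqrt_pos.mpr hnR
  have hbn : b₀ ≤ δ * √(n : ℝ) := by
    have h1 : (b₀ / δ) ^ 2 ≤ n := by
      have : (N : ℝ) + 1 ≤ n := by exact_mod_cast hn
      linarith
    have h2 : b₀ / δ ≤ √(n : ℝ) := Real.le_sqrt_of_sq_le h1
    rw [div_le_iff₀ hδpos] at h2
    linarith
  have hbpos : 0 < δ * √(n : ℝ) := by positivity
  set s : ℝ := (c / 4) * (√(m : ℝ) * √(n : ℝ)) with hs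
  have hspos : 0 < s := by positivity
  have main := expOptError_le hF0 hF2 (m := m) (n := n) hmpos hnpos hB0.le hspos hbpos
  have hsq : √((m : ℝ) * n) = √(m : ℝ) * √(n : ℝ) := Real.sqrt_mul hmR.le _
  rw [hsq]
  have hsm2 : √(m : ℝ) * √(m : ℝ) = m := Real.mul_self_sqrt hmR.le
  have hsn2 : √(n : ℝ) * √(n : ℝ) = n := Real.mul_self_sqrt hnR.le
  -- first term
  have t1 : √(n : ℝ) * (Real.log m + B ^ 2 / 8) ≤ (c / 4) * (√(m : ℝ) * √(n : ℝ)) := by
    have := mul_le_mul_of_nonneg_left (hm₀ m hm) hsn.le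
    linarith
  -- second term
  have t2 : (m : ℝ) * (n * tail F B) / (2 * s) + s / 2 ≤ (c / 4) * (√(m : ℝ) * √(n : ℝ)) := by
    have h1 : (m : ℝ) * (n * tail F B) ≤ s * s := by
      have : s * s = m * (n * (c / 4) ^ 2) := by
        rw [hs]
        calc c / 4 * (√(m : ℝ) * √(n : ℝ)) * (c / 4 * (√(m : ℝ) * √(n : ℝ)))
            = (√(m : ℝ) * √(m : ℝ)) * ((√(n : ℝ) * √(n : ℝ)) * (c / 4) ^ 2) := by ring
          _ = m * (n * (c / 4) ^ 2) := by rw [hsm2, hsn2]
      rw [this]
      gcongr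
    have h2 : (m : ℝ) * (n * tail F B) / (2 * s) ≤ s / 2 := by
      rw [div_le_iff₀ (by positivity)]
      linarith
    rw [← hs]
    linarith
  -- third term
  have t3 : K * (δ * √(n : ℝ)) ≤ (c / 8) * (√(m : ℝ) * √(n : ℝ)) := by
    rw [hδ]
    have : K * (c / 8 * √(m : ℝ) / K * √(n : ℝ)) = (c / 8) * (√(m : ℝ) * √(n : ℝ)) := by
      field_simp
    rw [this]
  have t4 : K * ((m * n) * (tail F (δ * √(n : ℝ)) / (δ * √(n : ℝ)))) ≤
      (c / 8) * (√(m : ℝ) * √(n : ℝ)) := by
    have h1 := hb _ hbn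
    have h2 : K * ((m * n) * (tail F (δ * √(n : ℝ)) / (δ * √(n : ℝ)))) =
        (K * m) * √(n : ℝ) / δ * tail F (δ * √(n : ℝ)) := by
      have : (n : ℝ) / √(n : ℝ) = √(n : ℝ) := by
        rw [div_eq_iff hsn.ne', hsn2]
      calc K * ((m * n) * (tail F (δ * √(n : ℝ)) / (δ * √(n : ℝ))))
          = (K * m) * ((n : ℝ) / √(n : ℝ)) / δ * tail F (δ * √(n : ℝ)) := by
            field_simp
        _ = _ := by rw [this]
    rw [h2]
    calc (K * m) * √(n : ℝ) / δ * tail F (δ * √(n : ℝ))
        ≤ (K * m) * √(n : ℝ) / δ * ((c / 8) * √(m : ℝ) * δ / (K * m)) := by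
          gcongr
      _ = (c / 8) * (√(m : ℝ) * √(n : ℝ)) := by
          field_simp
  have t5 : K * (δ * √(n : ℝ) + (m * n) * (tail F (δ * √(n : ℝ)) / (δ * √(n : ℝ)))) ≤
      (c / 4) * (√(m : ℝ) * √(n : ℝ)) := by
    rw [mul_add]
    linarith
  have hpos : 0 < c * (√(m : ℝ) * √(n : ℝ)) := by positivity
  linarith

end Pool.Agent.Results.MP_0b8746_pr.Disproof
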